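import Pool.Agent.ZTO.Stmts

/-!
# Row MDT of the squad ZTO (helper84): a subgroup of finite index acts trivially
-/

set_option autoImplicit false

open scoped BigOperators

namespace Pool.Agent.ZTO.H84

theorem mdt (hker : KerStmt) (hcof : CofStmt) (htfr : TfrStmt) (hlec : LecStmt) (hnil : NilStmt)
    (homg : OmgStmt) (hcmb : CmbStmt) : MdtStmt := by
  intro G _ _ p ψ V _ F t ρ x hp htor hFil
  by_cases hpx : p • x = 0
  · obtain ⟨c, hc⟩ := hcof G p ψ V F t ρ x hp hFil
    obtain ⟨-, hfi, -⟩ := hker G p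
    by_cases htriv : ∀ g ∈ Ker G p, ∀ v, ρ g v = v
    · exact ⟨Ker G p, hfi, htriv⟩
    · push Not at htriv
      obtain ⟨s, e, ω, hs, he, hLead, hne, hper⟩ := homg G p ψ V F t ρ x c hp hFil hc htriv
      exfalso
      refine hcmb p hp (Ker G p) (fun j g => ω j g.1) s e
        (fun i => {D | (∀ j, D (j + e) = D j) ∧ ∃ g ∈ Ker G p, Lead F ρ c g (s * i) D})
        hs he ?_ ?_ ?_ ?_ ?_
      · intro j
        obtain ⟨g, hg, h⟩ := hne j
        exact ⟨⟨g, hg⟩, h⟩
      · rintro ⟨g, hg⟩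
        refine ⟨fun j => hper j g hg, g, hg, ?_⟩
        rw [mul_one]
        exact hLead g hg
      · rintro i hi D ⟨hDp, g, hg, hL⟩ ⟨τ, hτ⟩
        refine ⟨fun j => ?_, τ * g * τ⁻¹ * g⁻¹, ?_, ?_⟩
        · show ω (j + e + s * i) τ * D (j + e) - D (j + e + s) * ω (j + e) τ =
            ω (j + s * i) τ * D j - D (j + s) * ω j τ
          rw [add_right_comm j e (s * i), add_right_comm j e s, hper _ τ hτ, hper _ τ hτ,
            hDp, hDp]
        · exact Subgroup.mul_mem _ (Subgroup.mul_mem _ (Subgroup.mul_mem _ hτ hg)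
            (Subgroup.inv_mem _ hτ)) (Subgroup.inv_mem _ hg)
        · have h1 := hlec G p ψ V F t ρ x c hp hFil hc τ g s (s * i) (fun j => ω j τ) D hs
            (Nat.one_le_iff_ne_zero.2 (by positivity)) (hLead τ hτ) hL
          rw [show s * (i + 1) = s + s * i by ring]
          exact h1
      · rintro i hi D ⟨hDp, -⟩
        exact hDp
      · rintro i hi D ⟨-, g, hg, hL⟩
        exact hnil G p ψ V F t ρ x c hp hFil hc hpx g (s * i) D
          (Nat.one_le_iff_ne_zero.2 (by positivity)) (htor g) hL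
  · exact htfr G p ψ V F t ρ x hp htor hFil hpx

end Pool.Agent.ZTO.H84
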